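import Mathlib

/-!
# MP_04b39a_gt: negative answers to Q1 and Q2 (for `p = 3`)

For `t ≥ 3` put
`a = t - 1/t - 2/(t+1) + 2/(t-1)`, `b = t + 1/t + 2/(t+1) + 2/(t-1)`,
`c = t - 1/t + 2/(t+1) - 2/(t-1)`, `d = t + 1/t - 2/(t+1) - 2/(t-1)`,
`f = t - 1/t + 2/(t+1) + 2/(t-1)`.
All five functions increase, and
`(a t - a s)^3 + (b t - b s)^3 + (c t - c s)^3 = (d t - d s)^3 + 2 (f t - f s)^3` for all `s, t`.
Hence the infinite set `M = {(d t, 2^(1/3) f t, 0) : t ≥ 3}` of the plane `x₃ = 0` has the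
`ℓ_3`-isometric copy `M' = {(a t, b t, c t) : t ≥ 3}`.
The curve `M'` meets every plane in at most four points.

(Background: the identity says that all differences of points of a rational normal quartic curve
lie on the cone over Cayley's four-nodal cubic surface, the part at infinity of its secant variety,
and the Sylvester form of Cayley's surface is a sum of five cubes.)
-/

set_option autoImplicit false

namespace Pool.Agent.Results.MP_04b39a_gt.QuarticCurve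

noncomputable section

open Set

/-- The norm `‖x‖_p = (|x₁|^p + |x₂|^p + |x₃|^p)^(1/p)` on `ℝ³`. -/
def pnorm (p : ℝ) (x : Fin 3 → ℝ) : ℝ :=
  (|x 0| ^ p + |x 1| ^ p + |x 2| ^ p) ^ (1 / p)

/-- `M'` is an `ℓ_p`-isometric copy of `M`: some bijection `φ : M → M'` satisfies
`‖φ x - φ y‖_p = ‖x - y‖_p` for all `x, y ∈ M`. -/
def IsCopy (p : ℝ) (M M' : Set (Fin 3 → ℝ)) : Prop :=
  ∃ φ : (Fin 3 → ℝ) → (Fin 3 → ℝ), Set.BijOn φ M M' ∧
    ∀ x ∈ M, ∀ y ∈ M, pnorm p (φ x - φ y) = pnorm p (x - y)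

/-- the sum of cubes -/
def cub (x : Fin 3 → ℝ) : ℝ := |x 0| ^ 3 + |x 1| ^ 3 + |x 2| ^ 3

lemma pnorm_three (x : Fin 3 → ℝ) : pnorm 3 x = (cub x) ^ ((1 : ℝ) / 3) := by
  unfold pnorm cub
  simp only [Real.rpow_ofNat]

lemma cub_nonneg (x : Fin 3 → ℝ) : 0 ≤ cub x := by
  unfold cub; positivity

lemma cub_neg (x : Fin 3 → ℝ) : cub (-x) = cub x := by
  unfold cub; simp

lemma pnorm_three_zero : pnorm 3 0 = 0 := by
  rw [pnorm_three]
  have : cub 0 = 0 := by simp [cub]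
  rw [this]
  exact Real.zero_rpow (by norm_num)

lemma eq_zero_of_pnorm {x : Fin 3 → ℝ} (h : pnorm 3 x = 0) : x = 0 := by
  rw [pnorm_three, Real.rpow_eq_zero (cub_nonneg x) (by norm_num)] at h
  unfold cub at h
  have h0 : 0 ≤ |x 0| ^ 3 := by positivity
  have h1 : 0 ≤ |x 1| ^ 3 := by positivity
  have h2 : 0 ≤ |x 2| ^ 3 := by positivity
  have e0 : |x 0| ^ 3 = 0 := by linarith
  have e1 : |x 1| ^ 3 = 0 := by linarith
  have e2 : |x 2| ^ 3 = 0 := by linarith
  have f0 : x 0 = 0 := by simpa using e0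
  have f1 : x 1 = 0 := by simpa using e1
  have f2 : x 2 = 0 := by simpa using e2
  funext i
  fin_cases i
  · exact f0
  · exact f1
  · exact f2

lemma copy_of_param {ι : Type} (f g : ι → Fin 3 → ℝ)
    (h : ∀ i j, cub (g i - g j) = cub (f i - f j)) : IsCopy 3 (range f) (range g) := by
  classical
  have hp : ∀ i j, pnorm 3 (g i - g j) = pnorm 3 (f i - f j) := by
    intro i j
    rw [pnorm_three, pnorm_three, h]
  have hfg : ∀ i j, f i = f j → g i = g j := by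
    intro i j hij
    have : pnorm 3 (g i - g j) = 0 := by
      rw [hp, hij, sub_self, pnorm_three_zero]
    exact sub_eq_zero.mp (eq_zero_of_pnorm this)
  have hgf : ∀ i j, g i = g j → f i = f j := by
    intro i j hij
    have : pnorm 3 (f i - f j) = 0 := by
      rw [← hp, hij, sub_self, pnorm_three_zero]
    exact sub_eq_zero.mp (eq_zero_of_pnorm this)
  let φ : (Fin 3 → ℝ) → (Fin 3 → ℝ) := fun x =>
    if hx : ∃ i, f i = x then g hx.choose else 0
  have hφ : ∀ i, φ (f i) = g i := by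
    intro i
    have hx : ∃ j, f j = f i := ⟨i, rfl⟩
    have : φ (f i) = g hx.choose := by
      simp only [φ]
      rw [dif_pos hx]
    rw [this]
    exact hfg _ _ hx.choose_spec
  refine ⟨φ, ⟨?_, ?_, ?_⟩, ?_⟩
  · rintro _ ⟨i, rfl⟩
    rw [hφ]
    exact ⟨i, rfl⟩
  · rintro _ ⟨i, rfl⟩ _ ⟨j, rfl⟩ hij
    rw [hφ, hφ] at hij
    exact hgf _ _ hij
  · rintro _ ⟨i, rfl⟩
    exact ⟨f i, ⟨i, rfl⟩, hφ i⟩
  · rintro _ ⟨i, rfl⟩ _ ⟨j, rfl⟩
    rw [hφ, hφ]
    exact hp i j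

/-- the parameter half-line `t ≥ 3` -/
abbrev T : Type := {t : ℝ // 3 ≤ t}

/-- the plane curve `M` (`κ` will be `2^(1/3)`) -/
def fM (κ : ℝ) (t : T) : Fin 3 → ℝ :=
  ![t.1 + 1 / t.1 - 2 / (t.1 + 1) - 2 / (t.1 - 1),
    κ * (t.1 - 1 / t.1 + 2 / (t.1 + 1) + 2 / (t.1 - 1)), 0]

/-- the space curve `M'` -/
def gM (t : T) : Fin 3 → ℝ :=
  ![t.1 - 1 / t.1 - 2 / (t.1 + 1) + 2 / (t.1 - 1),
    t.1 + 1 / t.1 + 2 / (t.1 + 1) + 2 / (t.1 - 1),
    t.1 - 1 / t.1 + 2 / (t.1 + 1) - 2 / (t.1 - 1)]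

lemma cub_vec (a b c : ℝ) : cub ![a, b, c] = |a| ^ 3 + |b| ^ 3 + |c| ^ 3 := by
  simp [cub]

lemma key_lt {κ : ℝ} (hκ0 : 0 < κ) (hκ3 : κ ^ 3 = 2) (s t : T) (hst : s.1 ≤ t.1) :
    cub (gM t - gM s) = cub (fM κ t - fM κ s) := by
  obtain ⟨s, hs⟩ := s
  obtain ⟨t, ht⟩ := t
  simp only at hst
  have hs0 : 0 < s := by linarith
  have ht0 : 0 < t := by linarith
  have hs1 : 0 < s - 1 := by linarith
  have ht1 : 0 < t - 1 := by linarith
  have hs2 : 0 < s + 1 := by linarith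
  have ht2 : 0 < t + 1 := by linarith
  obtain ⟨h, hh⟩ : ∃ h, h = t - s := ⟨_, rfl⟩
  obtain ⟨α, hα⟩ : ∃ α, α = 2 / ((t + 1) * (s + 1)) := ⟨_, rfl⟩
  obtain ⟨β, hβ⟩ : ∃ β, β = 1 / (t * s) := ⟨_, rfl⟩
  obtain ⟨γ, hγ⟩ : ∃ γ, γ = 2 / ((t - 1) * (s - 1)) := ⟨_, rfl⟩
  have hh0 : 0 ≤ h := by rw [hh]; linarith
  have hα0 : 0 < α := by rw [hα]; positivity
  have hβ0 : 0 < β := by rw [hβ]; positivity
  have hγ0 : 0 < γ := by rw [hγ]; positivity
  have hα1 : α ≤ 1 / 8 := by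
    rw [hα, div_le_div_iff₀ (by positivity) (by norm_num)]
    nlinarith
  have hβ1 : β ≤ 1 / 9 := by
    rw [hβ, div_le_div_iff₀ (by positivity) (by norm_num)]
    nlinarith
  have hγ1 : γ ≤ 1 / 2 := by
    rw [hγ, div_le_div_iff₀ (by positivity) (by norm_num)]
    nlinarith
  have e3 : α * β * γ - α * β + α * γ - β * γ = 0 := by
    rw [hα, hβ, hγ]
    field_simp
    ring
  have e1 : gM ⟨t, ht⟩ - gM ⟨s, hs⟩
      = ![h * (1 + α + β - γ), h * (1 - α - β - γ), h * (1 - α + β + γ)] := by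
    funext i
    fin_cases i <;> simp [gM, hα, hβ, hγ, hh] <;> field_simp <;> ring
  have e2 : fM κ ⟨t, ht⟩ - fM κ ⟨s, hs⟩
      = ![h * (1 + α - β + γ), κ * (h * (1 - α + β - γ)), 0] := by
    funext i
    fin_cases i <;> simp [fM, hα, hβ, hγ, hh]
    · field_simp
      ring
    · field_simp
      ring
  have p1 : 0 ≤ 1 + α + β - γ := by linarith
  have p2 : 0 ≤ 1 - α - β - γ := by linarith
  have p3 : 0 ≤ 1 - α + β + γ := by linarith
  have p4 : 0 ≤ 1 + α - β + γ := by linarith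
  have p5 : 0 ≤ 1 - α + β - γ := by linarith
  rw [e1, e2, cub_vec, cub_vec, abs_of_nonneg (mul_nonneg hh0 p1),
    abs_of_nonneg (mul_nonneg hh0 p2), abs_of_nonneg (mul_nonneg hh0 p3),
    abs_of_nonneg (mul_nonneg hh0 p4),
    abs_of_nonneg (mul_nonneg hκ0.le (mul_nonneg hh0 p5)), abs_zero]
  linear_combination (-24 * h ^ 3) * e3 - (h ^ 3 * (1 - α + β - γ) ^ 3) * hκ3

lemma key {κ : ℝ} (hκ0 : 0 < κ) (hκ3 : κ ^ 3 = 2) (t s : T) :
    cub (gM t - gM s) = cub (fM κ t - fM κ s) := by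
  rcases le_total s.1 t.1 with h | h
  · exact key_lt hκ0 hκ3 s t h
  · have := key_lt hκ0 hκ3 t s h
    rw [← neg_sub (gM s), ← neg_sub (fM κ s), cub_neg, cub_neg, this]

lemma fM_lt (κ : ℝ) {s t : T} (hst : s.1 < t.1) : fM κ s 0 < fM κ t 0 := by
  obtain ⟨s, hs⟩ := s
  obtain ⟨t, ht⟩ := t
  simp only at hst
  have hs0 : 0 < s := by linarith
  have ht0 : 0 < t := by linarith
  have h1 : 2 / (t + 1) ≤ 2 / (s + 1) :=
    div_le_div_of_nonneg_left (by norm_num) (by linarith) (by linarith)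
  have h2 : 2 / (t - 1) ≤ 2 / (s - 1) :=
    div_le_div_of_nonneg_left (by norm_num) (by linarith) (by linarith)
  have h3 : s + 1 / s < t + 1 / t := by
    have h4 : t + 1 / t - (s + 1 / s) = (t - s) * (1 - 1 / (t * s)) := by
      field_simp
      ring
    have h5 : 1 / (t * s) < 1 := by
      rw [div_lt_one (by positivity)]
      nlinarith
    have h6 : 0 < (t - s) * (1 - 1 / (t * s)) := mul_pos (by linarith) (by linarith)
    linarith
  simp only [fM, Matrix.cons_val_zero]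
  linarith

lemma fM_injective (κ : ℝ) : Function.Injective (fM κ) := by
  intro s t hst
  rcases lt_trichotomy s.1 t.1 with h | h | h
  · exact absurd (congrFun hst 0) (fM_lt κ h).ne
  · exact Subtype.ext h
  · exact absurd (congrFun hst 0) (fM_lt κ h).ne'

open Polynomial in
/-- the polynomial whose roots are the parameters of the points on a plane -/
def quartic (α β γ δ : ℝ) : Polynomial ℝ :=
  C (α + β + γ) * X ^ 4 + C (-δ) * X ^ 3 + C (-2 * α + 4 * β - 2 * γ) * X ^ 2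
    + C (4 * α - 4 * γ + δ) * X + C (α - β + γ)

open Polynomial in
lemma quartic_natDegree (α β γ δ : ℝ) : (quartic α β γ δ).natDegree ≤ 4 := by
  unfold quartic
  compute_degree

open Polynomial in
lemma quartic_ne_zero {α β γ δ : ℝ} (h : ¬ (α = 0 ∧ β = 0 ∧ γ = 0)) :
    quartic α β γ δ ≠ 0 := by
  intro h0
  apply h
  have c0 : (quartic α β γ δ).eval 0 = α - β + γ := by
    unfold quartic
    simp only [Polynomial.eval_add, Polynomial.eval_mul, Polynomial.eval_C, Polynomial.eval_pow,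
      Polynomial.eval_X]
    ring
  have c1 : (quartic α β γ δ).eval 1 = 4 * α + 4 * β - 4 * γ := by
    unfold quartic
    simp only [Polynomial.eval_add, Polynomial.eval_mul, Polynomial.eval_C, Polynomial.eval_pow,
      Polynomial.eval_X]
    ring
  have c2 : (quartic α β γ δ).eval (-1) = -4 * α + 4 * β + 4 * γ := by
    unfold quartic
    simp only [Polynomial.eval_add, Polynomial.eval_mul, Polynomial.eval_C, Polynomial.eval_pow,
      Polynomial.eval_X]
    ring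
  rw [h0, eval_zero] at c0 c1 c2
  refine ⟨?_, ?_, ?_⟩ <;> linarith

lemma quartic_eval {α β γ δ t : ℝ} (ht : 3 ≤ t)
    (h : (t - 1 / t - 2 / (t + 1) + 2 / (t - 1)) * α
      + (t + 1 / t + 2 / (t + 1) + 2 / (t - 1)) * β
      + (t - 1 / t + 2 / (t + 1) - 2 / (t - 1)) * γ = δ) :
    (quartic α β γ δ).eval t = 0 := by
  have ht0 : t ≠ 0 := by linarith
  have ht1 : t - 1 ≠ 0 := by
    have : 0 < t - 1 := by linarith
    exact this.ne'
  have ht2 : t + 1 ≠ 0 := by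
    have : 0 < t + 1 := by linarith
    exact this.ne'
  unfold quartic
  simp only [Polynomial.eval_add, Polynomial.eval_mul, Polynomial.eval_C, Polynomial.eval_pow,
    Polynomial.eval_X]
  rw [← h]
  field_simp
  ring

lemma encard_plane (P : AffineSubspace ℝ (Fin 3 → ℝ))
    (hP : Module.finrank ℝ P.direction = 2) :
    (range gM ∩ (P : Set (Fin 3 → ℝ))).encard ≤ 4 := by
  rcases (range gM ∩ (P : Set (Fin 3 → ℝ))).eq_empty_or_nonempty with hE | ⟨x0, -, hx0⟩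
  · rw [hE, encard_empty]
    exact bot_le
  have hlt : P.direction < ⊤ := by
    rw [lt_top_iff_ne_top]
    intro htop
    rw [htop, finrank_top, Module.finrank_fin_fun] at hP
    norm_num at hP
  obtain ⟨F, hF0, hF⟩ := Submodule.exists_le_ker_of_lt_top _ hlt
  have hconst : ∀ x ∈ P, F x = F x0 := by
    intro x hx
    have h1 : x - x0 ∈ P.direction := AffineSubspace.vsub_mem_direction hx hx0
    have h2 : F (x - x0) = 0 := hF h1
    rw [map_sub] at h2
    linarith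
  obtain ⟨α, hα⟩ : ∃ α, α = F (Pi.single 0 1) := ⟨_, rfl⟩
  obtain ⟨β, hβ⟩ : ∃ β, β = F (Pi.single 1 1) := ⟨_, rfl⟩
  obtain ⟨γ, hγ⟩ : ∃ γ, γ = F (Pi.single 2 1) := ⟨_, rfl⟩
  have hform : ∀ x : Fin 3 → ℝ, F x = x 0 * α + x 1 * β + x 2 * γ := by
    intro x
    have hx : x = x 0 • (Pi.single 0 1 : Fin 3 → ℝ) + x 1 • (Pi.single 1 1 : Fin 3 → ℝ)
        + x 2 • (Pi.single 2 1 : Fin 3 → ℝ) := by
      funext i
      fin_cases i <;> simp
    conv_lhs => rw [hx]
    rw [map_add, map_add, map_smul, map_smul, map_smul, ← hα, ← hβ, ← hγ]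
    simp only [smul_eq_mul]
  have hne : ¬ (α = 0 ∧ β = 0 ∧ γ = 0) := by
    rintro ⟨h1, h2, h3⟩
    apply hF0
    ext x
    fin_cases x <;> simp [hform, h1, h2, h3]
  let q := quartic α β γ (F x0)
  have hq : q ≠ 0 := quartic_ne_zero hne
  let gR : ℝ → Fin 3 → ℝ := fun t =>
    ![t - 1 / t - 2 / (t + 1) + 2 / (t - 1),
      t + 1 / t + 2 / (t + 1) + 2 / (t - 1),
      t - 1 / t + 2 / (t + 1) - 2 / (t - 1)]
  have hsub : range gM ∩ (P : Set (Fin 3 → ℝ)) ⊆ gR '' (q.roots.toFinset : Set ℝ) := by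
    rintro _ ⟨⟨⟨t, ht⟩, rfl⟩, hx⟩
    refine ⟨t, ?_, rfl⟩
    have h1 := hconst _ hx
    rw [hform (gM ⟨t, ht⟩)] at h1
    have h2 : q.eval t = 0 := quartic_eval ht h1
    simp only [Finset.mem_coe, Multiset.mem_toFinset]
    exact (Polynomial.mem_roots hq).mpr h2
  calc (range gM ∩ (P : Set (Fin 3 → ℝ))).encard
      ≤ (gR '' (q.roots.toFinset : Set ℝ)).encard := encard_le_encard hsub
    _ ≤ (q.roots.toFinset : Set ℝ).encard := encard_image_le _ _
    _ = (q.roots.toFinset.card : ℕ∞) := encard_coe_eq_coe_finsetCard _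
    _ ≤ ((4 : ℕ) : ℕ∞) := by
        have h1 := Multiset.toFinset_card_le q.roots
        have h2 := q.card_roots'
        have h3 : q.natDegree ≤ 4 := quartic_natDegree _ _ _ _
        exact_mod_cast (h1.trans h2).trans h3
    _ = 4 := by norm_num

/-- **Q2 (and hence Q1) of MP_04b39a_gt has a negative answer, with `p = 3`.**
There are an infinite set `M` in the horizontal plane `x₃ = 0` and an `ℓ_3`-isometric copy `M'`
of `M` such that every plane (`2`-dimensional affine subspace of `ℝ³`) meets `M'` in at most four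
points. -/
theorem result : ∃ M M' : Set (Fin 3 → ℝ), M.Infinite ∧ (∀ x ∈ M, x 2 = 0) ∧
    IsCopy 3 M M' ∧
    ∀ P : AffineSubspace ℝ (Fin 3 → ℝ), Module.finrank ℝ P.direction = 2 →
      (M' ∩ (P : Set (Fin 3 → ℝ))).encard ≤ 4 := by
  obtain ⟨κ, hκ⟩ : ∃ κ, κ = (2 : ℝ) ^ ((1 : ℝ) / 3) := ⟨_, rfl⟩
  have hκ0 : 0 < κ := by rw [hκ]; exact Real.rpow_pos_of_pos (by norm_num) _
  have hκ3 : κ ^ 3 = 2 := by
    rw [hκ, ← Real.rpow_natCast, ← Real.rpow_mul (by norm_num)]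
    norm_num
  refine ⟨range (fM κ), range gM, ?_, ?_, copy_of_param _ _ (key hκ0 hκ3), encard_plane⟩
  · have : Infinite T := inferInstanceAs (Infinite (Set.Ici (3 : ℝ)))
    exact Set.infinite_range_of_injective (fM_injective κ)
  · rintro _ ⟨t, rfl⟩
    simp [fM]

end

end Pool.Agent.Results.MP_04b39a_gt.QuarticCurve
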